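import Pool.Agent.K1H64.LH.Main

/-!
Q1 for solvable Lie groups with vanishing Chern-Ricci form, in particular for all solvable Lie
groups of type (I).
-/

namespace Pool.Agent.Results.MP_a150d7_gt.ChernSolvableRicciFlat

open Pool.Agent.K1H64.LH

universe u

theorem result {g : Type u} [LieRing g] [LieAlgebra ℝ g] [FiniteDimensional ℝ g] [Nontrivial g]
    {J : g →ₗ[ℝ] g} {B : g →ₗ[ℝ] g →ₗ[ℝ] ℝ} (H : LieHermitian J B)
    (hu : Unimodular g) (hr : (LieAlgebra.IsSolvable g ∧ ChernRicciFlat J) ∨ TypeI g)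
    {D : g →ₗ[ℝ] g →ₗ[ℝ] g} (hD : IsChern J B D) {c : ℝ} (hc : ConstantHSC J B D c) :
    c = 0 ∧ Flat D :=
  chern_main H hu (hr.imp_right Or.inl) hD hc

end Pool.Agent.Results.MP_a150d7_gt.ChernSolvableRicciFlat
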