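import Pool.Agent.K1H64.LH.TwoStepMain

/-!
Q1 for all two-step solvable Lie groups: on a unimodular two-step solvable Lie group with a left
invariant complex structure and a left invariant Hermitian metric, constant Chern holomorphic
sectional curvature `c` forces `c = 0` and Chern flatness.
-/

namespace Pool.Agent.Results.MP_a150d7_gt.ChernTwoStepSolvable

open Pool.Agent.K1H64.LH

universe u

theorem result {g : Type u} [LieRing g] [LieAlgebra ℝ g] [FiniteDimensional ℝ g] [Nontrivial g]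
    {J : g →ₗ[ℝ] g} {B : g →ₗ[ℝ] g →ₗ[ℝ] ℝ} (H : LieHermitian J B)
    (hu : Unimodular g) (h2 : ∀ x y z w : g, ⁅⁅x, y⁆, ⁅z, w⁆⁆ = 0)
    {D : g →ₗ[ℝ] g →ₗ[ℝ] g} (hD : IsChern J B D) {c : ℝ} (hc : ConstantHSC J B D c) :
    c = 0 ∧ Flat D :=
  twostep_main H hu h2 hD hc

end Pool.Agent.Results.MP_a150d7_gt.ChernTwoStepSolvable
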