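import Pool.Agent.K1H64.LH.Nilp

/-!
Q2 for all complex nilmanifolds: a nilpotent Lie group with a left invariant complex structure and
a left invariant Hermitian metric of constant Riemannian holomorphic sectional curvature is
abelian, and the constant is zero.
-/

namespace Pool.Agent.Results.MP_a150d7_gt.RiemannNilmanifold

open Pool.Agent.K1H64.LH

universe u

theorem result {g : Type u} [LieRing g] [LieAlgebra ℝ g] [FiniteDimensional ℝ g] [Nontrivial g]
    [LieRing.IsNilpotent g] {J : g →ₗ[ℝ] g} {B : g →ₗ[ℝ] g →ₗ[ℝ] ℝ} (H : LieHermitian J B)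
    {D : g →ₗ[ℝ] g →ₗ[ℝ] g} (hD : IsLeviCivita B D) {c : ℝ} (hc : ConstantHSC J B D c) :
    c = 0 ∧ ∀ x y : g, ⁅x, y⁆ = 0 :=
  riem_nilp H hD hc

end Pool.Agent.Results.MP_a150d7_gt.RiemannNilmanifold
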