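import Pool.Agent.K1H64.LH.TwoStepRiem

/-!
Q2 for unimodular Lie groups with a nonzero element acting by skew derivations (for instance with
nontrivial centre), which are two-step solvable, of type (I), or have vanishing Chern-Ricci form.
-/

namespace Pool.Agent.Results.MP_a150d7_gt.RiemannSkewElement

open Pool.Agent.K1H64.LH

universe u

theorem result {g : Type u} [LieRing g] [LieAlgebra ℝ g] [FiniteDimensional ℝ g]
    {J : g →ₗ[ℝ] g} {B : g →ₗ[ℝ] g →ₗ[ℝ] ℝ} (H : LieHermitian J B) (hu : Unimodular g)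
    (hr : (∀ x y z w : g, ⁅⁅x, y⁆, ⁅z, w⁆⁆ = 0) ∨ ChernRicciFlat J ∨ TypeI g)
    {D : g →ₗ[ℝ] g →ₗ[ℝ] g} (hD : IsLeviCivita B D) {u : g} (hu0 : u ≠ 0)
    (hsk : ∀ x y, B ⁅u, x⁆ y + B x ⁅u, y⁆ = 0) {c : ℝ} (hc : ConstantHSC J B D c) :
    c = 0 ∧ Flat D ∧ ∀ x y, D x (J y) = J (D x y) :=
  riem_skew H hu hr hD hu0 hsk hc

end Pool.Agent.Results.MP_a150d7_gt.RiemannSkewElement
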